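import Pool.Agent.X249.D3.Main

/-!
# Depth-three circuits for graph isomorphism

An `OrCNF` is a disjunction of CNFs, that is, a depth-three circuit with an OR gate at the top;
its inputs are the adjacency bits of two graphs `G`, `H` with `n` vertices. Trying all bijections
gives a disjunction of `n !` CNFs of width two.

(1) With bottom fan-in `k` nothing much better is possible: for `1 ≤ k` and `64 k² ≤ n`, each
disjunction of `s` CNFs of width `k` for graph isomorphism has `s ≥ n ^ (n / (2 k))`. So for constant
`k` the least number of `k`-CNFs is `n ^ Θ(n)`. For `k = 2` (and for Horn formulas and linear equations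
instead of CNFs) the starting result `SchaeferCover` gives `(1 - o(1)) n !`, by closure under Boolean
operations; there is no such operation for `k ≥ 3`.

(2) Without a bound for the fan-in, a depth-three circuit of this kind for graph isomorphism has
at least `2 ^ (√(n log n) / 100)` gates (for all large `n`).

Both bounds hold for randomised circuits with one-sided error: there may be a family of circuits
none of which accepts a pair of non-isomorphic graphs, where each pair of isomorphic graphs is
accepted by a fraction `1 / t` of the circuits; then `s t` instead of `s` is large. (Reducing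
parity to graph isomorphism gives `2 ^ (c n / k)` and `2 ^ (c √n)` only.)

Proof. We use bipartite graphs with `m` and `n - m` vertices in the two parts, that is, `n - m`
rows with `m` bits, where `2 ^ m` is smaller than `n / (4 k)`. Two such graphs are isomorphic if every
row occurs the same number of times, so that by the Cauchy-Schwarz inequality at least
`4 ^ ((n - m) m) / n ^ (2 ^ m)` pairs of these graphs are isomorphic. Changing one bit in a pair of
isomorphic graphs yields non-isomorphic graphs, so by the satisfiability coding lemma of Paturi,
Pudlák and Zane each `k`-CNF without wrong answers accepts at most `2 ^ ((2 - 2 / k) (n - m) m)` of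
these pairs. For (2), a random half of the bits is fixed, so that no wide clause survives.
-/

set_option autoImplicit false

namespace Pool.Agent.Results.MP_128e7d_lc.DepthThreeCircuits

open Finset Pool.Agent.X249.D3

/-- **Depth-three circuits for graph isomorphism.** (1) One-sided error randomised disjunctions of
`s` CNFs of width `k` which accept each pair of isomorphic graphs with probability `1 / t` satisfy
`s t ≥ n ^ (n / (2 k))` if `64 k² ≤ n`. (2) Without a bound for the width, if there are at most `S`
CNFs and at most `S` different clauses in each circuit then `S t ≥ 2 ^ (√(n log₂ n) / 100)` for all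
large `n`. -/
theorem result :
    (∀ (n k s t : ℕ), 1 ≤ k → 64 * k ^ 2 ≤ n → ∀ (R : Type) [Fintype R] [Nonempty R]
      (U : R → OrCNF (Bool × Sym2 (Fin n))), OneSided U t → (∀ r, (U r).Width k) →
      (∀ r, (U r).s ≤ s) → n ^ n ≤ (s * t) ^ (2 * k)) ∧
    ∃ n₀ : ℕ, ∀ n ≥ n₀, ∀ (S t : ℕ) (R : Type) [Fintype R] [Nonempty R]
      (U : R → OrCNF (Bool × Sym2 (Fin n))), OneSided U t → (∀ r, (U r).s ≤ S) →
      (∀ r, #(univ.biUnion (U r).F) ≤ S) →
      (2 : ℝ) ^ (Real.sqrt (n * Real.logb 2 n) / 100) ≤ S * t :=
  ⟨fun _ _ _ _ hk hn _ _ _ _ hU hw hs => small_width hk hn hU hw hs, depth_three⟩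

end Pool.Agent.Results.MP_128e7d_lc.DepthThreeCircuits
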