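import Pool.Agent.X249.HC.Main

/-!
# Polynomially many homomorphism counts of polynomial-size graphs decide isomorphism

Lovász (1967): two graphs `G`, `H` with `n` vertices are isomorphic if `hom (F, G) = hom (F, H)` for
all graphs `F` with at most `n` vertices. These are `2 ^ Θ(n²)` graphs `F`. Restricting `F` to the
classes of polynomially many natural graphs (or to the graphs of bounded tree-width) gives only
relaxations of isomorphism such as the Weisfeiler-Leman tests.

Here: for each `n` there are at most `18 n⁴` test graphs `F`, each with at most `109 n⁹` vertices,
such that any two graphs `G`, `H` on `n` vertices with `hom (F, G) = hom (F, H)` for all the test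
graphs `F` are isomorphic. So the map sending `G` to the `18 n⁴` numbers `hom (F, G)` (which have
polynomially many bits) is a complete isomorphism invariant; isomorphism of graphs of order `n` is
decided by polynomially many non-adaptive questions, of polynomial size and not depending on the
graphs, to an oracle that counts the homomorphisms from a given `F` to `G` and to `H`.

Proof. A test graph consists of `k ≤ n` core vertices and, for the pairs `u` of core vertices and
`l < 2 n`, of `m (u, l)` paths of length `2 n + 1 + 2 l` between the vertices of `u`. The number of
the homomorphisms to `G` is the sum over all `φ : core → V(G)` of the products of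
`(A ^ (2 n + 1 + 2 l)) (φ u₁, φ u₂) ^ m (u, l)`. If these exponential sums agree for `G` and `H` on
many tuples `m` they agree for all `m` (an exponential sum in one variable with `t` terms has less
than `t` zeros, because of Descartes' rule of signs), and then the numbers of `φ` with any given vector
of positive values `(A ^ (2 n + 1 + 2 l)) (φ u₁, φ u₂)` agree. Here only the number of the different
values (at most `2 n²`) for each coordinate matters, so that random `m (u, l) ≤ 8 n⁵ + 1` separate a
given pair `G`, `H` with probability at least `1 / 2`, and `2 n² + 1` tuples `m` suffice for all pairs.
The adjacency matrix is a linear combination (the same for `G` and `H`) of the powers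
`A ^ (2 n + 1 + 2 l)`, so the vector tells whether `φ` is a homomorphism from a given graph `K` on
the core; and the values of a homomorphism from `K` are positive if `K` is connected and not
bipartite, or if `K` is connected bipartite and `u` consists of vertices on different sides. So
`hom (K, G) = hom (K, H)` for all connected `K` with at most `n` vertices.
-/

set_option autoImplicit false

namespace Pool.Agent.Results.MP_128e7d_lc.HomCountTests

open Pool.Agent.X249.HC

/-- **Polynomially many homomorphism counts from polynomial-size graphs determine a graph up to
isomorphism.** -/
theorem result (n : ℕ) :
    ∃ L : List (Σ N : ℕ, SimpleGraph (Fin N)),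
      L.length ≤ 18 * n ^ 4 ∧ (∀ F ∈ L, F.1 ≤ 109 * n ^ 9) ∧
      ∀ G H : SimpleGraph (Fin n),
        (∀ F ∈ L, Nat.card (F.2 →g G) = Nat.card (F.2 →g H)) → Nonempty (G ≃g H) :=
  main n

end Pool.Agent.Results.MP_128e7d_lc.HomCountTests
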