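import Pool.Agent.X249.GI.OblMain

/-!
# A time-space tradeoff for graph isomorphism on nondeterministic oblivious branching programs

The program reads in the step `t < T` the input bit `var t` (the order is fixed, but arbitrary, and
bits may be read again), and changes its state nondeterministically, depending on the bit and the
step. It has `|σ|` states, that is, the space `S = log₂ |σ|`. It is non-uniform and the number of the
nondeterministic choices is not bounded.

If such a program decides the isomorphism of graphs with `n = 2 m` vertices in `T ≤ k m²` steps then
`m² ≤ 2 ^ (8 k + 2) ((4 k + 1) S + 2 m log₂ (2 m))`. So `T ≥ c n² log (n² / S)` for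
`n log n ≤ S ≤ n²`: with space `n ^ (2 - ε)` the time is `Ω (ε n² log n)`, and with linear time `O (n²)`
(for example a constant number of passes over the adjacency matrices in any fixed order) the space is
`Ω (n²)`, so that nothing essentially better than storing one of the graphs is possible. It is
enough that the program is correct for bipartite graphs with two sides of `m` vertices (`a` and `b`
false), or for split graphs (`a` true, `b` false; these graphs are chordal), or for complements of
bipartite graphs (`a` and `b` true).

In contrast to this, without the fixed order one can guess an isomorphism and compare the
corresponding bits one after the other, with `O (n log n)` bits of space and reading every bit once.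

Proof. By the lemma of Alon and Maass there are `δ m²` positions in the first graph and `δ m²`
positions in the second graph such that the program reads them alternately only `4 k + 1` times;
some permutation of the vertices maps `δ² m²` of the first positions to such positions of the second
graph. The pairs `(x, x)` of equal bits at these positions give isomorphic graphs and so accepting
computations; if the states at the `4 k` cuts agree for two such pairs, the parts can be exchanged.
A graph is isomorphic to at most `(2 m)!` graphs.
-/

set_option autoImplicit false

namespace Pool.Agent.Results.MP_128e7d_lc.ObliviousTradeoff

open Pool.Agent.X249.GI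

/-- **Time-space tradeoff for graph isomorphism.** -/
theorem result (m k : ℕ) (a b : Prop) (σ : Type) [Fintype σ]
    (P : NOBP (Bool × Sym2 (Fin m ⊕ Fin m)) σ)
    (hP : ∀ G H : SimpleGraph (Fin m ⊕ Fin m), Sided a b G → Sided a b H →
      (P.Accepts (pairBits G H) ↔ Nonempty (G ≃g H)))
    (hT : P.T ≤ k * m ^ 2) :
    (m : ℝ) ^ 2 ≤ 2 ^ (8 * k + 2) *
      ((4 * k + 1) * Real.logb 2 (Fintype.card σ) + 2 * m * Real.logb 2 (2 * m)) :=
  oblivious_log a b P hP hT

end Pool.Agent.Results.MP_128e7d_lc.ObliviousTradeoff
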