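import Pool.Agent.TH658.Dg.TMain

/-!
# Algebraic and semialgebraic proofs of the non-isomorphism of tournaments need linear degree

The isomorphism of tournaments is decided in time `n ^ O(log n)` (Babai and Luks), and it is not
known whether it is decided in polynomial time. For every `d ≥ 1` there are two non-isomorphic
tournaments on at most `10 ^ 18 d` vertices such that the usual system of polynomial equations for
their isomorphisms has no refutation of degree `d`, neither in the polynomial calculus over any
field (of any characteristic) nor in the Positivstellensatz calculus over the reals (in particular
the sum-of-squares relaxation of degree `d` is feasible). So proofs of non-isomorphism of degree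
`o(n)` do not exist for tournaments with `n` vertices, although they are a class of relational
structures for which the problem is quasipolynomial by simple group theory.

Usually pairs of structures built from linear equations modulo a prime `p` are refuted by the
polynomial calculus over the field with `p` elements, and tournaments have no automorphisms of even
order, so that equations modulo `2` cannot be used. The tournaments here are built from equations
modulo `15` for flows on an expander; for each field, one of the primes `3` and `5` is invertible.
The starting result `TournamentInvertibleMaps` treats the invertible-map test for the same
tournaments (which decides nothing about proofs with inequalities); the present result is about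
proof degrees.
-/

set_option autoImplicit false

namespace Pool.Agent.Results.MP_128e7d_lc.TournamentProofDegree

open Pool.Agent.TH658.Dg

/-- For every `d ≥ 1` there are non-isomorphic tournaments `T`, `T'` on the same set of at most
`10 ^ 18 d` vertices whose isomorphism is not refuted in degree `d` by the polynomial calculus over
any field and not by the Positivstellensatz calculus. -/
theorem result (d : ℕ) (hd : 1 ≤ d) :
    ∃ (V : Type) (_ : Fintype V) (T T' : V → V → Prop),
      Fintype.card V ≤ 10 ^ 18 * d ∧ IsTournament T ∧ IsTournament T' ∧
      (¬ ∃ φ : V ≃ V, ∀ x y, T x y ↔ T' (φ x) (φ y)) ∧
      (∀ (K : Type) [Field K], ¬ PCRefutes K T T' d) ∧ ¬ PosRefutes T T' d :=
  mainProofs d hd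

end Pool.Agent.Results.MP_128e7d_lc.TournamentProofDegree
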